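import Mathlib
import Pool.Agent.Helper33.EliahouDefs
import Pool.Agent.Helper33.EliahouFinal

namespace Pool.Agent.Results.MP_d1da17_co.EliahouAdjoin

open Pool.Agent.Helper33.Eliahou

/-- Let `m = γ 0 < γ 1 < ⋯ < γ (l' - 1) < c` be positive integers, all primitive in
`S' = ⟨γ 0, …, γ (l' - 1)⟩_c`, and let `S = ⟨γ 0, …, γ (l - 1)⟩_c` where `2 ≤ l < l'`.
If `γ l ≥ c + m - 2 γ 1` and the Eliahou number of `S` is nonnegative, then the Eliahou number of
`S'` is nonnegative (both computed relative to `c`). -/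
theorem result (γ : ℕ → ℕ) (c l l' : ℕ) (hl : 2 ≤ l) (hll : l < l')
    (hpos : 0 < γ 0)
    (hmono : ∀ i j, i < j → j < l' → γ i < γ j)
    (hc : ∀ i < l', γ i < c)
    (hprim : ∀ i < l', ¬ IsSum (sg γ l' c) (γ i))
    (hcond : c + γ 0 ≤ γ l + 2 * γ 1)
    (hE : 0 ≤ eliahou γ l c) :
    0 ≤ eliahou γ l' c :=
  main γ c l l' hl hll hpos hmono hc hprim hcond hE

end Pool.Agent.Results.MP_d1da17_co.EliahouAdjoin
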